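import Pool.Agent.Helper50.GP.St

/-!
# Project GP (MP_b3ce06_al), module WEV: evaluation of the words in `T`
-/

set_option autoImplicit false

namespace Pool.Agent.Helper80.GP

open Pool.Agent.Helper50.GP

theorem pow_mod_one {T : Type} [Group T] {a : T} {m x y : ℕ} (h : x ≡ y [MOD m])
    (ha : a ^ m = 1) : a ^ x = a ^ y := by
  rw [pow_eq_pow_mod x ha, pow_eq_pow_mod y ha]
  have : x % m = y % m := h
  rw [this]

theorem prod_pow_list {T : Type} [Group T] (b : T) (n : ℕ → ℕ) (p : ℕ) :
    ((List.range p).map (fun i => b ^ n i)).prod = b ^ (∑ i ∈ Finset.range p, n i) := by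
  induction p with
  | zero => simp
  | succ p ih =>
    rw [List.range_succ, List.map_append, List.prod_append, ih, Finset.sum_range_succ, pow_add]
    simp

theorem sum_ind (p : ℕ) [Fact p.Prime] (k0 : ZMod p) :
    (∑ i ∈ Finset.range p, (if (i : ZMod p) = k0 then 0 else 1)) + 1 = p := by
  have hp : 0 < p := (Fact.out : p.Prime).pos
  have h1 : (∑ i ∈ Finset.range p, (if (i : ZMod p) = k0 then 0 else 1)) +
      (∑ i ∈ Finset.range p, (if (i : ZMod p) = k0 then 1 else 0)) = p := by
    rw [← Finset.sum_add_distrib]
    have : ∀ i ∈ Finset.range p, ((if (i : ZMod p) = k0 then 0 else 1) +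
        (if (i : ZMod p) = k0 then 1 else 0)) = 1 := by
      intro i _
      by_cases h : (i : ZMod p) = k0 <;> simp [h]
    rw [Finset.sum_congr rfl this]
    simp
  have h2 : (∑ i ∈ Finset.range p, (if (i : ZMod p) = k0 then 1 else 0)) = 1 := by
    rw [Finset.sum_eq_single k0.val]
    · simp
    · intro i hi hne
      rw [if_neg]
      intro h
      apply hne
      rw [← h, ZMod.val_natCast, Nat.mod_eq_of_lt (Finset.mem_range.1 hi)]
    · intro h
      exact absurd (Finset.mem_range.2 (ZMod.val_lt k0)) h
  omega

theorem lift_one_one {T : Type} [Group T] (ω : FreeGroup (Fin 2)) :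
    FreeGroup.lift ![(1 : T), 1] ω = 1 := by
  have : FreeGroup.lift ![(1 : T), 1] = 1 := by
    apply FreeGroup.ext_hom
    intro i
    fin_cases i <;> simp
  rw [this]
  rfl

theorem hWEV : StWEV := by
  intro p q m g e1 e2 lam _ hP ρ T _ α β hα hβ hρ k0
  have h01 : (0 : ZMod p) ≠ 1 := zero_ne_one
  set z : ZMod p → T := fun k => if k = k0 then α else β with hz
  have a1 : α ^ e1 = α := by
    have := pow_mod_one hP.e1m hα
    rwa [pow_one] at this
  have b1 : β ^ e1 = 1 := by
    have := pow_mod_one hP.e1q hβ
    rwa [pow_zero] at this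
  have a2 : α ^ e2 = 1 := by
    have := pow_mod_one hP.e2m hα
    rwa [pow_zero] at this
  have b2 : β ^ e2 = β := by
    have := pow_mod_one hP.e2q hβ
    rwa [pow_one] at this
  have zmq : ∀ k, z k ^ (m * q) = 1 := by
    intro k
    by_cases h : k = k0
    · simp only [hz, h, if_true]
      rw [pow_mul, hα, one_pow]
    · simp only [hz, h, if_false]
      rw [mul_comm, pow_mul, hβ, one_pow]
  have vU : ∀ k, FreeGroup.lift z (Uw p e1 k) = if k = k0 then α else 1 := by
    intro k
    rw [Uw, map_pow, FreeGroup.lift_apply_of]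
    by_cases h : k = k0
    · simp only [hz, h, if_true, a1]
    · simp only [hz, h, if_false, b1]
  have vV : ∀ k, FreeGroup.lift z (Vw p e2 k) = β ^ (if k = k0 then 0 else 1) := by
    intro k
    rw [Vw, map_pow, FreeGroup.lift_apply_of]
    by_cases h : k = k0
    · simp only [hz, h, if_true, a2, pow_zero]
    · simp only [hz, h, if_false, b2, pow_one]
  have bp : β ^ (p - 1) = β := by
    have h1 : p - 1 + 1 ≡ 1 + 1 [MOD q] := by
      have : p - 1 + 1 = p := by have := hP.p3; omega
      rw [this]
      exact hP.pq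
    have := pow_mod_one (Nat.ModEq.add_right_cancel' 1 h1) hβ
    rwa [pow_one] at this
  have vD : FreeGroup.lift z (Dw p e2) = β := by
    have hD : Dw p e2 =
        (((List.range p).map (fun i : ℕ => (i : ZMod p))).map (Vw p e2)).prod := by
      rw [List.map_eq_flatMap (f := fun i : ℕ => (i : ZMod p))]
      rfl
    rw [hD, map_list_prod, List.map_map, List.map_map]
    have e : ((⇑(FreeGroup.lift z) ∘ Vw p e2) ∘ fun i : ℕ => (i : ZMod p)) =
        fun i : ℕ => β ^ (if (i : ZMod p) = k0 then 0 else 1) := by
      funext i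
      exact vV i
    rw [e, prod_pow_list]
    have := sum_ind p k0
    rw [show (∑ i ∈ Finset.range p, (if (i : ZMod p) = k0 then 0 else 1)) = p - 1 by omega]
    exact bp
  have vB : ∀ k, FreeGroup.lift z (Bw p e2 k) = if k = k0 then β else 1 := by
    intro k
    rw [Bw, map_mul, map_inv, vV, vD]
    by_cases h : k = k0 <;> simp [h]
  intro ω hω
  rw [words, List.mem_append] at hω
  rcases hω with hω | hω
  · simp only [List.mem_cons, List.not_mem_nil, or_false] at hω
    rcases hω with rfl | rfl | rfl | rfl | rfl
    · rw [map_pow, FreeGroup.lift_apply_of]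
      exact zmq 0
    · rw [map_mul, map_inv, map_mul, map_mul, vV, vV, ← pow_add, ← pow_add, add_comm,
        mul_inv_cancel]
    · rw [map_mul, map_inv, map_mul, map_mul, vU, vU]
      by_cases h : (0 : ZMod p) = k0
      · have h1 : (1 : ZMod p) ≠ k0 := fun h' => h01 (h.trans h'.symm)
        simp [h, h1]
      · simp [h]
    · rw [map_mul, map_inv, map_mul, map_mul, vU, vB]
      by_cases h : (0 : ZMod p) = k0
      · have h1 : (1 : ZMod p) ≠ k0 := fun h' => h01 (h.trans h'.symm)
        simp [h, h1]
      · simp [h]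
    · rw [map_pow, FreeGroup.lift_apply_of, pow_mul, zmq, one_pow]
  · rw [List.mem_map] at hω
    obtain ⟨τ, hτ, rfl⟩ := hω
    have e : FreeGroup.lift z (FreeGroup.lift ![Uw p e1 0, Bw p e2 0] τ) =
        FreeGroup.lift ![if (0 : ZMod p) = k0 then α else 1, if (0 : ZMod p) = k0 then β else 1]
          τ := by
      have : (FreeGroup.lift z).comp (FreeGroup.lift ![Uw p e1 0, Bw p e2 0]) =
          FreeGroup.lift
            ![if (0 : ZMod p) = k0 then α else 1, if (0 : ZMod p) = k0 then β else 1] := by
        apply FreeGroup.ext_hom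
        intro i
        fin_cases i
        · simp only [MonoidHom.comp_apply, FreeGroup.lift_apply_of]
          exact vU 0
        · simp only [MonoidHom.comp_apply, FreeGroup.lift_apply_of]
          exact vB 0
      rw [← this]
      rfl
    rw [e]
    by_cases h : (0 : ZMod p) = k0
    · simp only [h, if_true]
      exact hρ τ hτ
    · simp only [h, if_false]
      exact lift_one_one τ

end Pool.Agent.Helper80.GP
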